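import Pool.Agent.W423.NT.Defs
import Pool.Agent.W402.ND.Spec

set_option autoImplicit false

/-! Project NT, part SPEC: the functional equation for all `brkQ M G p μ` (adapted from the file of
helper402 for one exponent). -/

namespace Pool.Agent.W193.NT

open MvPolynomial Pool.Agent.W423.NT Pool.Agent.W402.ND
open Pool.Agent.W372.SG
open Pool.Agent.W425.ND (tr)
open Pool.Agent.H628R4.TP (weylS)

variable {d N P : ℕ}

/-- the value at a point of `ℕ ^ d` -/
noncomputable def evn (n : Fin d → ℕ) (q : MvPolynomial (Fin d) ℂ) : ℂ :=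
  eval (fun t => (n t : ℂ)) q

/-- operators depending polynomially on `n` -/
noncomputable def PQ (d N : ℕ) :
    Submodule ℂ ((Fin d → ℕ) → Module.End ℂ (MvPolynomial (Fin N) ℂ)) :=
  Submodule.span ℂ {F | ∃ (q : MvPolynomial (Fin d) ℂ)
    (Q : Module.End ℂ (MvPolynomial (Fin N) ℂ)), Q ∈ weylS (Fin N) ∧ F = fun n => evn n q • Q}

lemma genQ_mem (q : MvPolynomial (Fin d) ℂ) {Q : Module.End ℂ (MvPolynomial (Fin N) ℂ)}
    (hQ : Q ∈ weylS (Fin N)) : (fun n : Fin d → ℕ => evn n q • Q) ∈ PQ d N :=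
  Submodule.subset_span ⟨q, Q, hQ, rfl⟩

lemma constQ_mem {Q : Module.End ℂ (MvPolynomial (Fin N) ℂ)} (hQ : Q ∈ weylS (Fin N)) :
    (fun _ : Fin d → ℕ => Q) ∈ PQ d N := by
  have h := genQ_mem (d := d) 1 hQ
  simpa [evn] using h

lemma pq_mul {F G : (Fin d → ℕ) → Module.End ℂ (MvPolynomial (Fin N) ℂ)} (hF : F ∈ PQ d N)
    (hG : G ∈ PQ d N) : (fun s => F s * G s) ∈ PQ d N := by
  unfold PQ at hF
  induction hF using Submodule.span_induction with
  | mem x hx =>
    obtain ⟨j, Q, hQ, rfl⟩ := hx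
    unfold PQ at hG
    induction hG using Submodule.span_induction with
    | mem y hy =>
      obtain ⟨k, R, hR, rfl⟩ := hy
      have h := genQ_mem (j * k) (mul_mem hQ hR)
      have h2 : (fun s : Fin d → ℕ => (evn s j • Q) * (evn s k • R)) =
          fun s : Fin d → ℕ => evn s (j * k) • (Q * R) := by
        funext s
        rw [smul_mul_smul_comm, evn, evn, evn, map_mul]
      rw [h2]
      exact h
    | zero =>
      have h2 : (fun s : Fin d → ℕ => (evn s j • Q) *
          (0 : (Fin d → ℕ) → Module.End ℂ (MvPolynomial (Fin N) ℂ)) s) = 0 := by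
        funext s
        exact mul_zero _
      rw [h2]
      exact Submodule.zero_mem _
    | add y z _ _ hy hz =>
      have h2 : (fun s : Fin d → ℕ => (evn s j • Q) * (y + z) s) =
          (fun s : Fin d → ℕ => (evn s j • Q) * y s) + fun s => (evn s j • Q) * z s := by
        funext s
        exact mul_add _ _ _
      rw [h2]
      exact Submodule.add_mem _ hy hz
    | smul a y _ hy =>
      have h2 : (fun s : Fin d → ℕ => (evn s j • Q) * (a • y) s) =
          a • fun s : Fin d → ℕ => (evn s j • Q) * y s := by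
        funext s
        show (evn s j • Q) * (a • y s) = a • ((evn s j • Q) * y s)
        exact Algebra.mul_smul_comm a _ _
      rw [h2]
      exact Submodule.smul_mem _ _ hy
  | zero =>
    have h2 : (fun s : Fin d → ℕ =>
        (0 : (Fin d → ℕ) → Module.End ℂ (MvPolynomial (Fin N) ℂ)) s * G s) = 0 := by
      funext s
      exact zero_mul _
    rw [h2]
    exact Submodule.zero_mem _
  | add y z _ _ hy hz =>
    have h2 : (fun s : Fin d → ℕ => (y + z) s * G s) =
        (fun s => y s * G s) + fun s => z s * G s := by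
      funext s
      exact add_mul _ _ _
    rw [h2]
    exact Submodule.add_mem _ hy hz
  | smul a y _ hy =>
    have h2 : (fun s : Fin d → ℕ => (a • y) s * G s) = a • fun s => y s * G s := by
      funext s
      show (a • y s) * G s = a • (y s * G s)
      exact Algebra.smul_mul_assoc a _ _
    rw [h2]
    exact Submodule.smul_mem _ _ hy

/-- multiplication by a polynomial in `n` -/
lemma polQ_smul_mem (q : MvPolynomial (Fin d) ℂ)
    {F : (Fin d → ℕ) → Module.End ℂ (MvPolynomial (Fin N) ℂ)}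
    (hF : F ∈ PQ d N) : (fun s : Fin d → ℕ => evn s q • F s) ∈ PQ d N := by
  have h := pq_mul (genQ_mem q (one_mem (weylS (Fin N)))) hF
  have h2 : (fun s : Fin d → ℕ => evn s q • F s) = fun s : Fin d → ℕ =>
      evn s q • (1 : Module.End ℂ (MvPolynomial (Fin N) ℂ)) * F s := by
    funext s
    rw [Algebra.smul_mul_assoc, one_mul]
  rw [h2]
  exact h

lemma evn_shift (c : ℕ) (q : MvPolynomial (Fin d) ℂ) (n : Fin d → ℕ) (hn : ∀ t, c ≤ n t) :
    evn n (aeval (fun t => X t - C (c : ℂ)) q) = evn (fun t => n t - c) q := by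
  unfold evn
  rw [← MvPolynomial.coe_aeval_eq_eval, ← MvPolynomial.coe_aeval_eq_eval]
  simp only [RingHom.coe_coe]
  rw [← AlgHom.comp_apply, comp_aeval]
  congr 2
  funext t
  rw [map_sub, aeval_X, aeval_C, Nat.cast_sub (hn t)]
  rfl

/-- translation -/
lemma shiftQ_mem (c : ℕ) {F : (Fin d → ℕ) → Module.End ℂ (MvPolynomial (Fin N) ℂ)}
    (hF : F ∈ PQ d N) :
    ∃ G ∈ PQ d N, ∀ n : Fin d → ℕ, (∀ t, c ≤ n t) → G n = F (fun t => n t - c) := by
  unfold PQ at hF
  induction hF using Submodule.span_induction with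
  | mem x hx =>
    obtain ⟨j, Q, hQ, rfl⟩ := hx
    refine ⟨_, genQ_mem (aeval (fun t => X t - C (c : ℂ)) j) hQ, fun s hs => ?_⟩
    simp only
    rw [evn_shift c j s hs]
  | zero => exact ⟨0, Submodule.zero_mem _, fun s _ => rfl⟩
  | add y z _ _ hy hz =>
    obtain ⟨A, hA, hA'⟩ := hy
    obtain ⟨B, hB, hB'⟩ := hz
    refine ⟨A + B, Submodule.add_mem _ hA hB, fun s hs => ?_⟩
    rw [Pi.add_apply, hA' s hs, hB' s hs, Pi.add_apply]
  | smul a y _ hy =>
    obtain ⟨A, hA, hA'⟩ := hy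
    refine ⟨a • A, Submodule.smul_mem _ _ hA, fun s hs => ?_⟩
    rw [Pi.smul_apply, hA' s hs, Pi.smul_apply]

/-- commutation with powers of `a` -/
lemma pq_mov (a : MvPolynomial (Fin N) ℂ)
    {F : (Fin d → ℕ) → Module.End ℂ (MvPolynomial (Fin N) ℂ)}
    (hF : F ∈ PQ d N) : ∃ l : ℕ, ∀ e : ℕ, ∃ G ∈ PQ d N, ∀ s, ml (a ^ (l + e)) * F s =
      G s * ml (a ^ e) := by
  unfold PQ at hF
  induction hF using Submodule.span_induction with
  | mem x hx =>
    obtain ⟨j, Q, hQ, rfl⟩ := hx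
    obtain ⟨l, hl⟩ := exists_mov a hQ
    refine ⟨l, fun e => ?_⟩
    obtain ⟨Q', hQ', h⟩ := hl e
    refine ⟨_, genQ_mem j hQ', fun s => ?_⟩
    simp only
    rw [mul_smul_comm, h, smul_mul_assoc]
  | zero => exact ⟨0, fun e => ⟨0, Submodule.zero_mem _, fun s => by
      rw [Pi.zero_apply, mul_zero, zero_mul]⟩⟩
  | add y z _ _ hy hz =>
    obtain ⟨l1, h1⟩ := hy
    obtain ⟨l2, h2⟩ := hz
    refine ⟨l1 + l2, fun e => ?_⟩
    obtain ⟨A, hA, hA'⟩ := h1 (l2 + e)
    obtain ⟨B, hB, hB'⟩ := h2 (l1 + e)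
    refine ⟨(fun s => A s * ml (a ^ l2)) + fun s => B s * ml (a ^ l1),
      Submodule.add_mem _ (pq_mul hA (constQ_mem (ml_mem _))) (pq_mul hB (constQ_mem (ml_mem _))),
      fun s => ?_⟩
    rw [Pi.add_apply, Pi.add_apply, mul_add]
    have e1 : ml (a ^ (l1 + l2 + e)) * y s = A s * ml (a ^ l2) * ml (a ^ e) := by
      rw [add_assoc, hA', pow_add, ml_mul, mul_assoc]
    have e2 : ml (a ^ (l1 + l2 + e)) * z s = B s * ml (a ^ l1) * ml (a ^ e) := by
      rw [add_comm l1 l2, add_assoc, hB', pow_add, ml_mul, mul_assoc]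
    rw [e1, e2, add_mul]
  | smul c y _ hy =>
    obtain ⟨l, hl⟩ := hy
    refine ⟨l, fun e => ?_⟩
    obtain ⟨A, hA, hA'⟩ := hl e
    refine ⟨c • A, Submodule.smul_mem _ _ hA, fun s => ?_⟩
    rw [Pi.smul_apply, Pi.smul_apply, mul_smul_comm, hA', smul_mul_assoc]

/-! ### The iterated functional equation -/

lemma SM_sub (M : Fin (P+1) → Fin d → ℕ) (n : Fin d → ℕ) (K : ℕ) (hn : ∀ t, K ≤ n t)
    (k : Fin (P+1)) : SM M n k = SM M (fun t => n t - K) k + K * rowM M k := by
  unfold SM rowM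
  rw [Finset.mul_sum, ← Finset.sum_add_distrib]
  refine Finset.sum_congr rfl fun t _ => ?_
  have h := hn t
  obtain ⟨j, hj⟩ := Nat.exists_eq_add_of_le h
  show M k t * n t = M k t * (n t - K) + K * M k t
  rw [hj, Nat.add_sub_cancel_left]
  ring

lemma iterQ (M : Fin (P+1) → Fin d → ℕ) (G : Fin (P+1) → MvPolynomial (Fin N) ℂ)
    (a : MvPolynomial (Fin N) ℂ) (b : MvPolynomial (Fin d) ℂ)
    (F0 : (Fin d → ℕ) → Module.End ℂ (MvPolynomial (Fin N) ℂ)) (hF0 : F0 ∈ PQ d N)
    (h0 : ∀ n : Fin d → ℕ, C (evn n b) * (a * ∏ k, G k ^ SM M n k) =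
      F0 n (∏ k, G k ^ (SM M n k + rowM M k))) (m : ℕ) :
    ∃ (E : ℕ) (F : (Fin d → ℕ) → Module.End ℂ (MvPolynomial (Fin N) ℂ)), F ∈ PQ d N ∧
      ∀ n : Fin d → ℕ, (∀ t, m ≤ n t) →
      a ^ E * (C (evn n (prodbQ b m)) * ∏ k, G k ^ SM M (fun t => n t - m) k) =
        F n (∏ k, G k ^ (SM M n k + rowM M k)) := by
  induction m with
  | zero =>
    refine ⟨1, F0, hF0, fun s _ => ?_⟩
    rw [← h0 s]
    have h1 : evn s (prodbQ b 0) = evn s b := by
      unfold prodbQ
      rw [zero_add, Finset.range_one, Finset.prod_singleton]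
      have := evn_shift 0 b s (fun t => Nat.zero_le _)
      simp only [Nat.cast_zero, map_zero, sub_zero, aeval_X_left_apply, Nat.sub_zero] at this ⊢
    rw [h1, pow_one]
    simp only [Nat.sub_zero]
    ring
  | succ m ih =>
    obtain ⟨E, F, hF, hFs⟩ := ih
    obtain ⟨H0, hH0, hGs⟩ := shiftQ_mem (m + 1) hF0
    obtain ⟨l, hl⟩ := pq_mov a hH0
    obtain ⟨H, hH, hHs⟩ := hl E
    refine ⟨l + E + 1, fun s => H s * F s, pq_mul hH hF, fun s hs => ?_⟩
    have h1 : evn s (prodbQ b (m + 1)) = evn s (prodbQ b m) * evn (fun t => s t - (m + 1)) b := by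
      unfold prodbQ
      rw [Finset.prod_range_succ, ← evn_shift (m + 1) b s hs]
      unfold evn
      rw [map_mul]
    have h2 := h0 (fun t => s t - (m + 1))
    have h3 : ∀ k, SM M (fun t => s t - (m + 1)) k + rowM M k = SM M (fun t => s t - m) k := by
      intro k
      rw [SM_sub M (fun t => s t - m) 1 (fun t => by have := hs t; omega) k, one_mul]
      congr 2
    simp only [h3] at h2
    rw [← hGs s hs] at h2
    have h4 := LinearMap.congr_fun (hHs s) (C (evn s (prodbQ b m)) *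
      ∏ k, G k ^ SM M (fun t => s t - m) k)
    rw [Module.End.mul_apply, Module.End.mul_apply, ml_apply, ml_apply,
      hFs s (fun t => by have := hs t; omega)] at h4
    have h5 : H0 s (C (evn s (prodbQ b m)) * ∏ k, G k ^ SM M (fun t => s t - m) k) =
        C (evn s (prodbQ b m)) * H0 s (∏ k, G k ^ SM M (fun t => s t - m) k) := by
      rw [C_mul', map_smul, C_mul']
    rw [Module.End.mul_apply, ← h4, h5, ← h2, h1, map_mul, pow_succ]
    ring

/-- the product of the falling factorials as a polynomial -/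
noncomputable def dfQ (M : Fin (P+1) → Fin d → ℕ) (μ : Fin (P+1) → ℕ) : MvPolynomial (Fin d) ℂ :=
  ∏ k, Polynomial.aeval (∑ t, C ((M k t : ℕ) : ℂ) * X t : MvPolynomial (Fin d) ℂ)
    (descPochhammer ℂ (μ k))

lemma evn_dfQ (M : Fin (P+1) → Fin d → ℕ) (μ : Fin (P+1) → ℕ) (n : Fin d → ℕ) :
    evn n (dfQ M μ) = ((∏ k, (SM M n k).descFactorial (μ k) : ℕ) : ℂ) := by
  unfold evn dfQ
  rw [map_prod, Nat.cast_prod]
  refine Finset.prod_congr rfl fun k _ => ?_
  rw [Polynomial.aeval_def, Polynomial.hom_eval₂]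
  have h1 : (eval (fun t => (n t : ℂ))).comp (algebraMap ℂ (MvPolynomial (Fin d) ℂ)) =
      RingHom.id ℂ := by
    refine RingHom.ext fun c => ?_
    rw [RingHom.comp_apply, MvPolynomial.algebraMap_eq, eval_C]
    rfl
  have h2 : eval (fun t => (n t : ℂ)) (∑ t, C ((M k t : ℕ) : ℂ) * X t) = ((SM M n k : ℕ) : ℂ) := by
    rw [map_sum]
    unfold SM
    push_cast
    refine Finset.sum_congr rfl fun t _ => ?_
    rw [map_mul, eval_C, eval_X]
  rw [h1, h2]
  exact descPochhammer_eval_eq_descFactorial ℂ (SM M n k) (μ k)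

/-- The functional equation for `∏ G_k ^ (s_k - μ_k)`, `n ≥ K`. -/
lemma iterQ_all (M : Fin (P+1) → Fin d → ℕ) (hM : ∀ l, 1 ≤ rowM M l)
    (G : Fin (P+1) → MvPolynomial (Fin N) ℂ)
    (a p : MvPolynomial (Fin N) ℂ) (b : MvPolynomial (Fin d) ℂ)
    (F0 : (Fin d → ℕ) → Module.End ℂ (MvPolynomial (Fin N) ℂ)) (hF0 : F0 ∈ PQ d N)
    (h0 : ∀ n : Fin d → ℕ, C (evn n b) * (a * ∏ k, G k ^ SM M n k) =
      F0 n (∏ k, G k ^ (SM M n k + rowM M k))) (K : ℕ) (μ : Fin (P+1) → ℕ)
    (hμ : ∀ k, μ k ≤ K) :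
    ∃ (E : ℕ) (F : (Fin d → ℕ) → Module.End ℂ (MvPolynomial (Fin N) ℂ)), F ∈ PQ d N ∧
      ∀ n : Fin d → ℕ, (∀ t, K ≤ n t) →
      a ^ E * (C (evn n (prodbQ b K)) *
        (p * ((∏ k, (SM M n k).descFactorial (μ k) : ℕ) : MvPolynomial (Fin N) ℂ) *
          ∏ k, G k ^ (SM M n k - μ k))) =
        F n (∏ k, G k ^ (SM M n k + rowM M k)) := by
  obtain ⟨E, F, hF, hFs⟩ := iterQ M G a b F0 hF0 h0 K
  set p' : MvPolynomial (Fin N) ℂ := p * ∏ k, G k ^ (K * rowM M k - μ k) with hp'
  refine ⟨E, fun s => evn s (dfQ M μ) • (ml p' * F s),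
    polQ_smul_mem _ (pq_mul (constQ_mem (ml_mem p')) hF), fun s hs => ?_⟩
  rw [LinearMap.smul_apply, Module.End.mul_apply, ml_apply, ← hFs s hs, evn_dfQ]
  have h1 : ∏ k, G k ^ (SM M s k - μ k) =
      (∏ k, G k ^ SM M (fun t => s t - K) k) * ∏ k, G k ^ (K * rowM M k - μ k) := by
    rw [← Finset.prod_mul_distrib]
    refine Finset.prod_congr rfl fun k _ => ?_
    rw [← pow_add]
    congr 1
    have h2 := SM_sub M s K hs k
    have h3 : μ k ≤ K * rowM M k := (hμ k).trans (Nat.le_mul_of_pos_right K (hM k))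
    omega
  rw [h1, ← C_mul', map_natCast, hp']
  ring

/-! ### Normal form -/

/-- the terms of the normal form -/
noncomputable def gtQ (u : FnQ d N ℂ) (x : (Fin N → ℤ) × MvPolynomial (Fin d ⊕ Fin N) ℂ) :
    FnQ d N ℂ := lowQ x.1 (x.2 • u)

lemma gtQ_apply (u : FnQ d N ℂ) (x : (Fin N → ℤ) × MvPolynomial (Fin d ⊕ Fin N) ℂ)
    (s : Fin d → ℕ) (e : Fin N →₀ ℕ) : gtQ u x s e = if ∀ i, 0 ≤ (e i : ℤ) + x.1 i then
      ((∏ i, ((e i : ℤ) + x.1 i).toNat.descFactorial (x.1 i).toNat : ℕ) : ℂ) *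
        (eval (evQ s (tr x.1 e)) x.2 * u s (tr x.1 e)) else 0 := rfl

/-- the coefficients of a sequence of polynomials -/
noncomputable def cfQ (U : (Fin d → ℕ) → MvPolynomial (Fin N) ℂ) : FnQ d N ℂ :=
  fun s e => coeff e (U s)

lemma cfQ_apply (U : (Fin d → ℕ) → MvPolynomial (Fin N) ℂ) (s : Fin d → ℕ) (e : Fin N →₀ ℕ) :
    cfQ U s e = coeff e (U s) := rfl

lemma sumQ_fn {ι : Type} (S : Finset ι) (u : ι → FnQ d N ℂ) (s : Fin d → ℕ) (e : Fin N →₀ ℕ) :
    (∑ i ∈ S, u i) s e = ∑ i ∈ S, u i s e := by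
  classical
  induction S using Finset.induction_on with
  | empty => rfl
  | insert a S ha ih =>
    rw [Finset.sum_insert ha, Finset.sum_insert ha, addQ_apply, ih]

/-- the normal form -/
lemma normalQ (g : (Fin d → ℕ) → MvPolynomial (Fin N) ℂ)
    {F : (Fin d → ℕ) → Module.End ℂ (MvPolynomial (Fin N) ℂ)} (hF : F ∈ PQ d N) :
    cfQ (fun s => F s (g s)) ∈ AddSubmonoid.closure (Set.range (gtQ (cfQ g))) := by
  unfold PQ at hF
  induction hF using Submodule.span_induction with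
  | mem x hx =>
    obtain ⟨j, Q, hQ, rfl⟩ := hx
    obtain ⟨q, hqf, hq⟩ := Pool.Agent.H628R4.TP.act_weyl Q hQ
    have h1 : cfQ (fun s => (evn s j • Q) (g s)) =
        ∑ δ ∈ hqf.toFinset, gtQ (cfQ g) (δ, rename Sum.inl j * rename Sum.inr (q δ)) := by
      funext s e
      have h2 := coeff_act Q q hq hqf.toFinset (fun u hu => (Set.Finite.mem_toFinset _).2 hu)
        (g s) e
      rw [cfQ_apply, LinearMap.smul_apply, coeff_smul, smul_eq_mul, h2, Finset.mul_sum, sumQ_fn]
      refine Finset.sum_congr rfl fun δ _ => ?_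
      rw [gtQ_apply]
      simp only
      split_ifs with hpos
      · rw [map_mul, eval_rename, eval_rename]
        have h5 : (evQ s (tr δ e) : Fin d ⊕ Fin N → ℂ) ∘ Sum.inr =
            fun i => ((((e i : ℤ) + δ i : ℤ)) : ℂ) := by
          funext i
          show (((((e i : ℤ) + δ i).toNat : ℕ)) : ℂ) = _
          have h6 := hpos i
          have h7 : (((((e i : ℤ) + δ i).toNat : ℕ)) : ℤ) = (e i : ℤ) + δ i := Int.toNat_of_nonneg h6
          rw [← h7]
          push_cast
          rfl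
        have h8 : (evQ s (tr δ e) : Fin d ⊕ Fin N → ℂ) ∘ Sum.inl = fun t => (s t : ℂ) := rfl
        rw [h5, h8]
        have h9 : ed e δ = tr δ e := rfl
        rw [h9, cfQ_apply, evn]
        push_cast
        ring
      · rw [mul_zero]
    rw [h1]
    exact AddSubmonoid.sum_mem _ fun δ _ => AddSubmonoid.subset_closure ⟨_, rfl⟩
  | zero =>
    have h1 : cfQ (fun s => (0 : (Fin d → ℕ) → Module.End ℂ (MvPolynomial (Fin N) ℂ)) s (g s)) =
        0 := by
      funext s e
      show coeff e ((0 : Module.End ℂ (MvPolynomial (Fin N) ℂ)) (g s)) = 0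
      rw [LinearMap.zero_apply, coeff_zero]
    rw [h1]
    exact AddSubmonoid.zero_mem _
  | add x y _ _ hx hy =>
    have h1 : cfQ (fun s => (x + y) s (g s)) =
        cfQ (fun s => x s (g s)) + cfQ (fun s => y s (g s)) := by
      funext s e
      show coeff e ((x s + y s) (g s)) = coeff e (x s (g s)) + coeff e (y s (g s))
      rw [LinearMap.add_apply, coeff_add]
    rw [h1]
    exact AddSubmonoid.add_mem _ hx hy
  | smul c x _ hx =>
    obtain ⟨n, y, hy⟩ := closure_sum _ _ hx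
    have h1 : cfQ (fun s => (c • x) s (g s)) = ∑ k, gtQ (cfQ g) ((y k).1, C c * (y k).2) := by
      funext s e
      have h2 : cfQ (fun s => (c • x) s (g s)) s e = c * cfQ (fun s => x s (g s)) s e := by
        show coeff e ((c • x s) (g s)) = c * coeff e (x s (g s))
        rw [LinearMap.smul_apply, coeff_smul, smul_eq_mul]
      rw [h2, hy, sumQ_fn, sumQ_fn, Finset.mul_sum]
      refine Finset.sum_congr rfl fun k _ => ?_
      rw [gtQ_apply, gtQ_apply]
      simp only
      split_ifs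
      · rw [map_mul, eval_C]; ring
      · rw [mul_zero]
    rw [h1]
    exact AddSubmonoid.sum_mem _ fun k _ => AddSubmonoid.subset_closure ⟨_, rfl⟩

/-- **SPEC** -/
theorem taskSPECQ : TaskSPECQ := by
  classical
  intro d N P loc M G b hM hU K μ hμ p
  obtain ⟨a, D, ha0, ha1, hfe⟩ := hU
  set F0 : (Fin d → ℕ) → Module.End ℂ (MvPolynomial (Fin N) ℂ) := fun n =>
    D.sum fun β Q => (∏ t, (n t : ℂ) ^ β t) • (Q : Module.End ℂ (MvPolynomial (Fin N) ℂ)) with hF0
  have hF0m : F0 ∈ PQ d N := by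
    have h1 : F0 = ∑ β ∈ D.support, fun n : Fin d → ℕ => evn n (∏ t, X t ^ β t) •
        ((D β : weylS (Fin N)) : Module.End ℂ (MvPolynomial (Fin N) ℂ)) := by
      funext s
      rw [Finset.sum_apply, hF0]
      simp only [evn, map_prod, map_pow, eval_X]
      rfl
    rw [h1]
    exact Submodule.sum_mem _ fun j _ => genQ_mem _ (D j).2
  have h0 : ∀ n : Fin d → ℕ, C (evn n b) * (a * ∏ k, G k ^ SM M n k) =
      F0 n (∏ k, G k ^ (SM M n k + rowM M k)) := by
    intro s
    rw [evn, hfe s, hF0]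
    simp only [Finsupp.sum, LinearMap.coe_sum, Finset.sum_apply, LinearMap.smul_apply]
  obtain ⟨E, F, hF, hFs⟩ := iterQ_all M hM G a p b F0 hF0m h0 K μ hμ
  obtain ⟨n, y, hy⟩ := closure_sum _ _ (normalQ
    (fun s : Fin d → ℕ => ∏ k, G k ^ (SM M s k + rowM M k)) hF)
  have hu : cfQ (fun s : Fin d → ℕ => ∏ k, G k ^ (SM M s k + rowM M k)) =
      shQ 1 (brkQ M G 1 0) := by
    funext s e
    show coeff e (∏ k, G k ^ (SM M s k + rowM M k)) = coeff e ((1 : MvPolynomial (Fin N) ℂ) *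
      ((∏ k, (SM M (fun t => s t + 1) k).descFactorial 0 : ℕ) : MvPolynomial (Fin N) ℂ) *
        ∏ k, G k ^ (SM M (fun t => s t + 1) k - 0))
    have h1 : ∀ k, SM M (fun t => s t + 1) k = SM M s k + rowM M k := by
      intro k
      rw [SM_sub M (fun t => s t + 1) 1 (fun t => by omega) k, one_mul]
      rfl
    simp only [h1, Nat.descFactorial_zero, Finset.prod_const_one, Nat.cast_one, one_mul,
      Nat.sub_zero]
  rw [hu] at hy
  obtain ⟨n0, x, hx, hsum⟩ := fin_sum (M := ℂ) ((a ^ E).support.erase 0)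
  refine ⟨n, n0, fun k => (y k).1, fun k => (y k).2, fun k i => -((x k i : ℕ) : ℤ),
    fun k => -coeff (x k) (a ^ E), fun k => ⟨?_, fun i => ?_, ?_⟩, ?_⟩
  · by_contra hloc
    have h1 := hx k
    rw [ha1 hloc, one_pow, Finset.mem_erase, mem_support_iff, coeff_one] at h1
    exact h1.2 (if_neg (Ne.symm h1.1))
  · simp
  · intro h1
    have h2 := hx k
    rw [Finset.mem_erase] at h2
    apply h2.1
    ext i
    have h3 := congrFun h1 i
    simp only [Pi.zero_apply, neg_eq_zero, Nat.cast_eq_zero] at h3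
    exact h3
  · have hyy : ∑ k, lowQ (y k).1 ((y k).2 • shQ 1 (brkQ M G 1 0)) =
        cfQ (fun s => F s (∏ k, G k ^ (SM M s k + rowM M k))) := hy.symm
    rw [hyy]
    funext s' e
    set s : Fin d → ℕ := fun t => s' t + K with hs
    have hsK : ∀ t, K ≤ s t := fun t => by rw [hs]; exact Nat.le_add_left _ _
    show ((BopQ (prodbQ b K) : MvPolynomial (Fin d ⊕ Fin N) ℂ) • brkQ M G p μ) s e =
      (cfQ (fun s => F s (∏ k, G k ^ (SM M s k + rowM M k))) + _ : FnQ d N ℂ) s e
    rw [addQ_apply, sumQ_fn, smulQ_apply, cfQ_apply, ← hFs s hsK]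
    have hB : ∀ e : Fin N →₀ ℕ, eval (evQ s e : Fin d ⊕ Fin N → ℂ) (BopQ (prodbQ b K)) =
        evn s (prodbQ b K) := by
      intro e
      unfold BopQ evn
      rw [← MvPolynomial.coe_aeval_eq_eval, ← MvPolynomial.coe_aeval_eq_eval]
      simp only [RingHom.coe_coe]
      rw [← AlgHom.comp_apply, comp_aeval]
      congr 2
      funext t
      rw [aeval_X]
      rfl
    set H : MvPolynomial (Fin N) ℂ := C (evn s (prodbQ b K)) *
        (p * ((∏ k, (SM M s k).descFactorial (μ k) : ℕ) : MvPolynomial (Fin N) ℂ) *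
          ∏ k, G k ^ (SM M s k - μ k)) with hG
    have hl : eval (evQ s e : Fin d ⊕ Fin N → ℂ) (BopQ (prodbQ b K)) * brkQ M G p μ s e =
        coeff e H := by
      rw [hB, hG, coeff_C_mul]
      rfl
    have hlow : ∀ c : Fin N →₀ ℕ, lowQ (fun i => -((c i : ℕ) : ℤ))
        ((C (-coeff c (a ^ E)) * BopQ (prodbQ b K) : MvPolynomial (Fin d ⊕ Fin N) ℂ) •
          brkQ M G p μ) s e = -coeff e (monomial c (coeff c (a ^ E)) * H) := by
      intro c
      unfold lowQ
      rw [coeff_monomial_mul']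
      by_cases hc : c ≤ e
      · rw [if_pos hc, if_pos (fun i => by
          have h7 := hc i
          simp only
          omega)]
        have h2 : tr (fun i => -((c i : ℕ) : ℤ)) e = e - c := by
          ext i
          show ((e i : ℤ) + -((c i : ℕ) : ℤ)).toNat = _
          rw [Finsupp.tsub_apply]
          omega
        rw [h2, smulQ_apply, map_mul, eval_C]
        have hl2 : eval (evQ s (e - c) : Fin d ⊕ Fin N → ℂ) (BopQ (prodbQ b K)) *
            brkQ M G p μ s (e - c) = coeff (e - c) H := by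
          rw [hB, hG, coeff_C_mul]
          rfl
        rw [mul_assoc, hl2]
        simp
      · rw [if_neg hc, if_neg, neg_zero]
        intro h2
        apply hc
        intro i
        have h7 := h2 i
        simp only at h7
        omega
    simp only [hlow, hl]
    rw [← hsum (fun c => -coeff e (monomial c (coeff c (a ^ E)) * H)), Finset.sum_neg_distrib]
    have h0s : (0 : Fin N →₀ ℕ) ∈ (a ^ E).support := by
      rw [mem_support_iff, ← constantCoeff_eq, map_pow, ha0, one_pow]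
      exact one_ne_zero
    have h3 : coeff e (a ^ E * H) = ∑ c ∈ (a ^ E).support,
        coeff e (monomial c (coeff c (a ^ E)) * H) := by
      conv_lhs => rw [← support_sum_monomial_coeff (a ^ E)]
      rw [Finset.sum_mul, coeff_sum]
    rw [h3, ← Finset.add_sum_erase _ _ h0s]
    have h4 : coeff 0 (a ^ E) = 1 := by
      rw [← constantCoeff_eq, map_pow, ha0, one_pow]
    rw [h4]
    have h5 : (monomial (0 : Fin N →₀ ℕ) (1 : ℂ)) = 1 := rfl
    rw [h5, one_mul]
    ring

end Pool.Agent.W193.NT
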